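import Mathlib

/-!
Definitions for MP_20f07a_co: vertex-transitivity, growth, Voronoi cells and the survival number.
-/

namespace Pool.Agent.Lib.MP_20f07a_co

section Defs

variable {V : Type*}

/-- `G` is vertex-transitive: automorphisms act transitively on the vertices. -/
def VertexTransitive (G : SimpleGraph V) : Prop := ∀ u v : V, ∃ φ : G ≃g G, φ u = v

/-- The ball `B(v, r)` for the graph metric. -/
def ball (G : SimpleGraph V) (v : V) (r : ℕ) : Set V := {u | G.dist v u ≤ r}

/-- Linear growth: the number of vertices of the balls of radius `r` is bounded above by a linear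
function of `r`. -/
def LinearGrowth (G : SimpleGraph V) : Prop :=
  ∃ a b : ℕ, ∀ (v : V) (r : ℕ), (ball G v r).encard ≤ ((a * r + b : ℕ) : ℕ∞)

/-- The Voronoi cell `C(v, T)`. -/
def cell (G : SimpleGraph V) (v : V) (T : Finset V) : Set V :=
  {u | ∀ v' ∈ T, G.dist u v ≤ G.dist u v'}

/-- The number `I(T)` of `v ∈ T` whose Voronoi cell is infinite. -/
noncomputable def numInfinite (G : SimpleGraph V) (T : Finset V) : ℕ :=
  {v : V | v ∈ T ∧ (cell G v T).Infinite}.ncard

/-- The family `𝒯(d, n)` of finite sets with at least `n` elements, any two distinct elements of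
which are at distance greater than `d`. -/
def sepSets (G : SimpleGraph V) (d n : ℕ) : Set (Finset V) :=
  {T | n ≤ T.card ∧ ∀ v₁ ∈ T, ∀ v₂ ∈ T, v₁ ≠ v₂ → d < G.dist v₁ v₂}

/-- The survival number `s(G)`, an element of `ℕ ∪ {∞}`. -/
noncomputable def survivalNumber (G : SimpleGraph V) : ℕ∞ :=
  sSup {s : ℕ∞ | ∃ n : ℕ, s = n ∧ 1 ≤ n ∧ ∃ d : ℕ, ∀ T ∈ sepSets G d n, n ≤ numInfinite G T}

end Defs

end Pool.Agent.Lib.MP_20f07a_co
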