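import Pool.Agent.Lib.MP_20f07a_co.Defs

/-!
# A vertex-transitive graph with survival number two and at least quadratic growth (proofs)
-/

namespace Pool.Agent.Lib.MP_20f07a_co

/-! ## The graph -/

/-- Vertices: points of `ℤ²` together with a type, `false` (horizontal) or `true` (vertical). -/
abbrev Vtx := ℤ × ℤ × Bool

/-- Two horizontal vertices are adjacent when they differ by at most `2` in the first and by at
most `1` in the second coordinate; two vertical ones when they differ by at most `1` in the first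
and by at most `2` in the second coordinate; and the two vertices over a point are adjacent. -/
def G : SimpleGraph Vtx where
  Adj u w := u ≠ w ∧
    ((u.2.2 = false ∧ w.2.2 = false ∧ |u.1 - w.1| ≤ 2 ∧ |u.2.1 - w.2.1| ≤ 1) ∨
      (u.2.2 = true ∧ w.2.2 = true ∧ |u.1 - w.1| ≤ 1 ∧ |u.2.1 - w.2.1| ≤ 2) ∨
      (u.2.2 ≠ w.2.2 ∧ u.1 = w.1 ∧ u.2.1 = w.2.1))
  symm := ⟨by
    rintro u w ⟨hne, h⟩
    refine ⟨hne.symm, ?_⟩
    rw [abs_sub_comm w.1, abs_sub_comm w.2.1]
    rcases h with ⟨h1, h2, h3⟩ | ⟨h1, h2, h3⟩ | ⟨h1, h2, h3⟩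
    · exact Or.inl ⟨h2, h1, h3⟩
    · exact Or.inr (Or.inl ⟨h2, h1, h3⟩)
    · exact Or.inr (Or.inr ⟨h1.symm, h2.symm, h3.symm⟩)⟩
  loopless := ⟨fun u h => h.1 rfl⟩

/-- Swapping type and coordinates. -/
def swapFun (u : Vtx) : Vtx := (u.2.1, u.1, !u.2.2)

lemma swap_adj (u w : Vtx) (h : G.Adj u w) : G.Adj (swapFun u) (swapFun w) := by
  obtain ⟨x, y, s⟩ := u
  obtain ⟨x', y', t⟩ := w
  obtain ⟨hne, h⟩ := h
  refine ⟨?_, ?_⟩
  · simp only [swapFun, ne_eq, Prod.mk.injEq, not_and] at hne ⊢
    intro h1 h2 h3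
    exact hne h2 h1 (by simpa using h3)
  · simp only [swapFun] at h ⊢
    rcases h with ⟨h1, h2, h3, h4⟩ | ⟨h1, h2, h3, h4⟩ | ⟨h1, h2, h3⟩
    · exact Or.inr (Or.inl ⟨by simp [h1], by simp [h2], h4, h3⟩)
    · exact Or.inl ⟨by simp [h1], by simp [h2], h4, h3⟩
    · exact Or.inr (Or.inr ⟨by simpa using h1, h3, h2⟩)

/-- The swap automorphism. -/
def swapIso : G ≃g G where
  toFun := swapFun
  invFun := swapFun
  left_inv u := by simp [swapFun]
  right_inv u := by simp [swapFun]
  map_rel_iff' := by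
    intro u w
    refine ⟨fun h => ?_, swap_adj u w⟩
    have := swap_adj _ _ h
    simpa [swapFun] using this

/-- Translation automorphisms. -/
def transIso (a b : ℤ) : G ≃g G where
  toFun u := (u.1 + a, u.2.1 + b, u.2.2)
  invFun u := (u.1 - a, u.2.1 - b, u.2.2)
  left_inv u := by simp
  right_inv u := by simp
  map_rel_iff' := by
    rintro ⟨x, y, s⟩ ⟨x', y', t⟩
    simp [G]

lemma vertexTransitive : VertexTransitive G := by
  rintro ⟨x, y, s⟩ ⟨x', y', t⟩
  by_cases h : s = t
  · subst h
    exact ⟨transIso (x' - x) (y' - y), by simp [transIso]⟩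
  · refine ⟨swapIso.trans (transIso (x' - y) (y' - x)), ?_⟩
    have : (!s) = t := by
      cases s <;> cases t <;> simp_all
    simp [swapIso, transIso, swapFun, this]

/-! ## Upper bounds for distances -/

lemma walk_H (k : ℕ) : ∀ x y x' y' : ℤ, |x - x'| ≤ 2 * k → |y - y'| ≤ k →
    ∃ p : G.Walk (x, y, false) (x', y', false), p.length ≤ k := by
  induction k with
  | zero =>
    intro x y x' y' h1 h2
    have hx : x = x' := by
      have := abs_nonpos_iff.mp (h1.trans (by simp))
      omega
    have hy : y = y' := by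
      have := abs_nonpos_iff.mp (h2.trans (by simp))
      omega
    subst hx hy
    exact ⟨SimpleGraph.Walk.nil, by simp⟩
  | succ k ih =>
    intro x y x' y' h1 h2
    rw [abs_le] at h1 h2
    push_cast at h1 h2
    by_cases heq : x = x' ∧ y = y'
    · obtain ⟨rfl, rfl⟩ := heq
      exact ⟨SimpleGraph.Walk.nil, by simp⟩
    · obtain ⟨x1, hx1, hx2, hx3⟩ : ∃ x1 : ℤ, |x - x1| ≤ 2 ∧ |x1 - x'| ≤ 2 * k ∧
          (x1 = x → x = x') := by
        by_cases c1 : x' - x > 2
        · exact ⟨x + 2, by rw [abs_le]; constructor <;> omega,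
            by rw [abs_le]; constructor <;> omega, by omega⟩
        · by_cases c2 : x' - x < -2
          · exact ⟨x - 2, by rw [abs_le]; constructor <;> omega,
              by rw [abs_le]; constructor <;> omega, by omega⟩
          · exact ⟨x', by rw [abs_le]; constructor <;> omega, by simp, fun h => h.symm⟩
      obtain ⟨y1, hy1, hy2, hy3⟩ : ∃ y1 : ℤ, |y - y1| ≤ 1 ∧ |y1 - y'| ≤ k ∧
          (y1 = y → y = y') := by
        by_cases c1 : y' - y > 1
        · exact ⟨y + 1, by rw [abs_le]; constructor <;> omega,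
            by rw [abs_le]; constructor <;> omega, by omega⟩
        · by_cases c2 : y' - y < -1
          · exact ⟨y - 1, by rw [abs_le]; constructor <;> omega,
              by rw [abs_le]; constructor <;> omega, by omega⟩
          · exact ⟨y', by rw [abs_le]; constructor <;> omega, by simp, fun h => h.symm⟩
      obtain ⟨p, hp⟩ := ih x1 y1 x' y' hx2 hy2
      have hadj : G.Adj (x, y, false) (x1, y1, false) := by
        refine ⟨?_, Or.inl ⟨rfl, rfl, hx1, hy1⟩⟩
        intro h
        simp only [Prod.mk.injEq, and_true] at h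
        exact heq ⟨hx3 h.1.symm, hy3 h.2.symm⟩
      exact ⟨SimpleGraph.Walk.cons hadj p, by rw [SimpleGraph.Walk.length_cons]; omega⟩

lemma walk_V (k : ℕ) (x y x' y' : ℤ) (h1 : |x - x'| ≤ k) (h2 : |y - y'| ≤ 2 * k) :
    ∃ p : G.Walk (x, y, true) (x', y', true), p.length ≤ k := by
  obtain ⟨p, hp⟩ := walk_H k y x y' x' h2 h1
  exact ⟨p.map swapIso.toHom, (SimpleGraph.Walk.length_map _ _).trans_le hp⟩

lemma adj_switch (x y : ℤ) (s : Bool) : G.Adj (x, y, s) (x, y, !s) := by
  refine ⟨by simp, Or.inr (Or.inr ⟨by simp, rfl, rfl⟩)⟩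

lemma connected : G.Connected := by
  have h0 : ∀ x y : ℤ, ∀ s : Bool, G.Reachable (x, y, s) (x, y, false) := by
    intro x y s
    cases s
    · exact SimpleGraph.Reachable.refl _
    · exact (adj_switch x y true).reachable
  have h1 : ∀ x y x' y' : ℤ, G.Reachable (x, y, false) (x', y', false) := by
    intro x y x' y'
    obtain ⟨p, -⟩ := walk_H ((x - x').natAbs + (y - y').natAbs) x y x' y'
      (by rw [Int.abs_eq_natAbs]; omega) (by rw [Int.abs_eq_natAbs]; omega)
    exact p.reachable
  refine { preconnected := ?_, nonempty := ⟨(0, 0, false)⟩ }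
  rintro ⟨x, y, s⟩ ⟨x', y', t⟩
  exact ((h0 x y s).trans (h1 x y x' y')).trans (h0 x' y' t).symm

lemma dist_HH (k : ℕ) (x y x' y' : ℤ) (h1 : |x - x'| ≤ 2 * k) (h2 : |y - y'| ≤ k) :
    G.dist (x, y, false) (x', y', false) ≤ k := by
  obtain ⟨p, hp⟩ := walk_H k x y x' y' h1 h2
  exact (SimpleGraph.dist_le p).trans hp

lemma dist_VV (k : ℕ) (x y x' y' : ℤ) (h1 : |x - x'| ≤ k) (h2 : |y - y'| ≤ 2 * k) :
    G.dist (x, y, true) (x', y', true) ≤ k := by
  obtain ⟨p, hp⟩ := walk_V k x y x' y' h1 h2
  exact (SimpleGraph.dist_le p).trans hp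

lemma dist_switch (x y : ℤ) (s t : Bool) : G.dist (x, y, s) (x, y, t) ≤ 1 := by
  by_cases h : s = t
  · subst h
    simp
  · have : t = !s := by cases s <;> cases t <;> simp_all
    subst this
    exact (SimpleGraph.dist_eq_one_iff_adj.mpr (adj_switch x y s)).le

/-- First upper bound: from a horizontal vertex, moving horizontally, then possibly switching. -/
lemma dist_H_any (k : ℕ) (x y x' y' : ℤ) (t : Bool) (h1 : |x - x'| ≤ 2 * k) (h2 : |y - y'| ≤ k) :
    G.dist (x, y, false) (x', y', t) ≤ k + 1 :=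
  (connected.dist_triangle (v := (x', y', false))).trans
    (add_le_add (dist_HH k x y x' y' h1 h2) (dist_switch x' y' false t))

/-- Second upper bound: `a` horizontal moves, a switch, `b` vertical moves, a switch. -/
lemma dist_mixed (a b : ℕ) (x y x' y' : ℤ) (t : Bool) (h1 : |x - x'| ≤ 2 * a + b)
    (h2 : |y - y'| ≤ a + 2 * b) : G.dist (x, y, false) (x', y', t) ≤ a + b + 2 := by
  obtain ⟨x1, hx1, hx2⟩ : ∃ x1 : ℤ, |x - x1| ≤ 2 * a ∧ |x1 - x'| ≤ b := by
    simp only [Int.abs_eq_natAbs] at *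
    by_cases c1 : x' - x > 2 * a
    · exact ⟨x + 2 * a, by omega, by omega⟩
    · by_cases c2 : x' - x < -(2 * a)
      · exact ⟨x - 2 * a, by omega, by omega⟩
      · exact ⟨x', by omega, by omega⟩
  obtain ⟨y1, hy1, hy2⟩ : ∃ y1 : ℤ, |y - y1| ≤ a ∧ |y1 - y'| ≤ 2 * b := by
    simp only [Int.abs_eq_natAbs] at *
    by_cases c1 : y' - y > a
    · exact ⟨y + a, by omega, by omega⟩
    · by_cases c2 : y' - y < -a
      · exact ⟨y - a, by omega, by omega⟩
      · exact ⟨y', by omega, by omega⟩
  have e1 := dist_HH a x y x1 y1 hx1 hy1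
  have e2 := dist_switch x1 y1 false true
  have e3 := dist_VV b x1 y1 x' y' hx2 hy2
  have e4 := dist_switch x' y' true t
  have t1 := connected.dist_triangle (u := (x, y, false)) (v := (x1, y1, false))
    (w := (x', y', t))
  have t2 := connected.dist_triangle (u := (x1, y1, false)) (v := (x1, y1, true))
    (w := (x', y', t))
  have t3 := connected.dist_triangle (u := (x1, y1, true)) (v := (x', y', true))
    (w := (x', y', t))
  omega

/-! ## Lower bounds for distances -/

lemma walk_lower {u w : Vtx} (p : G.Walk u w) :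
    |u.1 - w.1| ≤ 2 * p.length ∧ |u.2.1 - w.2.1| ≤ 2 * p.length ∧
      |u.1 - w.1| + |u.2.1 - w.2.1| ≤ 3 * p.length := by
  induction p with
  | nil => simp
  | @cons a b c h p ih =>
    rw [SimpleGraph.Walk.length_cons]
    obtain ⟨-, h⟩ := h
    simp only [Int.abs_eq_natAbs] at *
    omega

lemma walk_refined {u w : Vtx} (p : G.Walk u w) :
    (u.2.2 = false → w.2.2 = false → |u.1 - w.1| ≤ 2 * p.length) ∧
    (u.2.2 = true → w.2.2 = false → |u.1 - w.1| + 2 ≤ 2 * p.length) ∧
    (u.2.2 = false → w.2.2 = true → |u.1 - w.1| + 2 ≤ 2 * p.length) ∧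
    (u.2.2 = true → w.2.2 = true →
      |u.1 - w.1| ≤ p.length ∨ |u.1 - w.1| + 4 ≤ 2 * p.length) := by
  induction p with
  | @nil a => cases a.2.2 <;> simp
  | @cons a b c h p ih =>
    rw [SimpleGraph.Walk.length_cons]
    obtain ⟨-, h⟩ := h
    obtain ⟨i1, i2, i3, i4⟩ := ih
    simp only [Int.abs_eq_natAbs] at *
    rcases h with ⟨ha, hb, h3, h4⟩ | ⟨ha, hb, h3, h4⟩ | ⟨hab, h3, h4⟩
    · refine ⟨fun _ hc => ?_, fun ha' _ => ?_, fun _ hc => ?_, fun ha' _ => ?_⟩
      · have := i1 hb hc
        omega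
      · simp [ha] at ha'
      · have := i3 hb hc
        omega
      · simp [ha] at ha'
    · refine ⟨fun ha' _ => ?_, fun _ hc => ?_, fun ha' _ => ?_, fun _ hc => ?_⟩
      · simp [ha] at ha'
      · have := i2 hb hc
        omega
      · simp [ha] at ha'
      · have := i4 hb hc
        omega
    · refine ⟨fun ha hc => ?_, fun ha hc => ?_, fun ha hc => ?_, fun ha hc => ?_⟩
      · have hb : b.2.2 = true := by
          rw [ha] at hab
          simpa using hab.symm
        have := i2 hb hc
        omega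
      · have hb : b.2.2 = false := by
          rw [ha] at hab
          simpa using hab.symm
        have := i1 hb hc
        omega
      · have hb : b.2.2 = true := by
          rw [ha] at hab
          simpa using hab.symm
        have := i4 hb hc
        omega
      · have hb : b.2.2 = false := by
          rw [ha] at hab
          simpa using hab.symm
        have := i3 hb hc
        omega

/-! ## The middle vertex of the triple has a finite cell -/

lemma key (N : ℕ) (hN : 9 ≤ N) (σ : ℤ) (hσ : σ = 1 ∨ σ = -1) (x y : ℤ) (hy : 0 ≤ y) (t : Bool)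
    (hout : ¬ (|x| ≤ 2 * N + 3 ∧ y ≤ N + 1)) :
    G.dist (x, σ * y, t) (0, σ * N, false) < G.dist (x, σ * y, t) (0, 0, true) := by
  rw [SimpleGraph.dist_comm (v := (0, σ * N, false)), SimpleGraph.dist_comm (v := (0, 0, true))]
  obtain ⟨p, hp⟩ := connected.exists_walk_length_eq_dist (0, 0, true) (x, σ * y, t)
  have l1 := walk_lower p
  have l2 := walk_refined p
  rw [hp] at l1 l2
  generalize G.dist (0, 0, true) (x, σ * y, t) = L at *
  simp only [zero_sub, abs_neg] at l1 l2
  have hyσ : |σ * y| = y := by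
    rcases hσ with rfl | rfl
    · rw [one_mul, abs_of_nonneg hy]
    · rw [neg_one_mul, abs_neg, abs_of_nonneg hy]
  have hdiff : |σ * N - σ * y| = |N - y| := by
    rcases hσ with rfl | rfl
    · simp
    · rw [neg_one_mul, neg_one_mul, ← abs_neg]
      congr 1
      ring
  rw [hyσ] at l1
  obtain ⟨l11, l12, l13⟩ := l1
  by_cases hB : 2 * (y - N) > |x|
  · -- far above (or below)
    obtain ⟨n, hn⟩ : ∃ n : ℕ, L = n + 3 := ⟨L - 3, by omega⟩
    subst hn
    push_cast at l11 l12 l13
    have habs : |(N : ℤ) - y| = y - N := by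
      rw [abs_sub_comm, abs_of_nonneg]
      have := abs_nonneg x
      omega
    obtain ⟨a, ha1, ha2, ha3⟩ : ∃ a : ℕ, a ≤ n ∧ |x| ≤ n + a ∧ y - N ≤ 2 * n - a := by
      rw [Int.abs_eq_natAbs] at *
      exact ⟨x.natAbs - n, by omega, by omega, by omega⟩
    have := dist_mixed a (n - a) 0 (σ * N) x (σ * y) t (by
        rw [zero_sub, abs_neg]
        omega) (by
        rw [hdiff, habs]
        omega)
    omega
  · -- the side case
    have hx4 : 4 ≤ |x| := by
      by_contra h4
      exact hout ⟨by omega, by omega⟩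
    have hA : 2 * |(N : ℤ) - y| ≤ |x| := by
      by_contra hA
      apply hout
      rw [Int.abs_eq_natAbs, Int.abs_eq_natAbs] at hA
      rw [Int.abs_eq_natAbs] at hB ⊢
      omega
    obtain ⟨k, hk1, hk2⟩ : ∃ k : ℕ, |x| ≤ 2 * k ∧ 2 * (k : ℤ) ≤ |x| + 1 := by
      rw [Int.abs_eq_natAbs] at *
      exact ⟨(x.natAbs + 1) / 2, by omega, by omega⟩
    have h1 : |0 - x| ≤ 2 * (k : ℤ) := by rwa [zero_sub, abs_neg]
    have h2 : |σ * N - σ * y| ≤ (k : ℤ) := by
      rw [hdiff]
      omega
    cases t with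
    | false =>
      have h3 := dist_HH k 0 (σ * N) x (σ * y) h1 h2
      have h4 := l2.2.1 (by trivial) (by trivial)
      omega
    | true =>
      have h3 := dist_H_any k 0 (σ * N) x (σ * y) true h1 h2
      have h4 := l2.2.2.2 (by trivial) (by trivial)
      omega

/-- The centre `o` and its two competitors. -/
def ctr : Vtx := (0, 0, true)

lemma cell_finite (N : ℕ) (hN : 9 ≤ N) (T : Finset Vtx) (h1 : ((0, (N : ℤ), false) : Vtx) ∈ T)
    (h2 : ((0, -(N : ℤ), false) : Vtx) ∈ T) : (cell G ctr T).Finite := by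
  have hfin : ((Set.Icc (-(2 * N + 3) : ℤ) (2 * N + 3)) ×ˢ
      ((Set.Icc (-(N + 1) : ℤ) (N + 1)) ×ˢ (Set.univ : Set Bool))).Finite :=
    (Set.finite_Icc _ _).prod ((Set.finite_Icc _ _).prod Set.finite_univ)
  refine hfin.subset ?_
  rintro ⟨x, y, t⟩ hu
  by_contra hcon
  have hout : ∀ y' : ℤ, |y| = y' → ¬ (|x| ≤ 2 * N + 3 ∧ y' ≤ N + 1) := by
    rintro y' rfl ⟨ha, hb⟩
    apply hcon
    rw [abs_le] at ha hb
    refine ⟨⟨?_, ?_⟩, ⟨⟨?_, ?_⟩, trivial⟩⟩ <;> dsimp only <;> omega
  rcases le_total 0 y with hy | hy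
  · have := key N hN 1 (Or.inl rfl) x y hy t (hout y (abs_of_nonneg hy))
    simp only [one_mul] at this
    exact absurd (hu _ h1) (not_le.mpr this)
  · have := key N hN (-1) (Or.inr rfl) x (-y) (by omega) t (hout (-y) (abs_of_nonpos hy))
    simp only [neg_mul, one_mul, neg_neg] at this
    exact absurd (hu _ h2) (not_le.mpr this)

/-! ## At least two infinite cells -/

lemma infinite_pair (v w : Vtx) : {u : Vtx | G.dist u w ≤ G.dist u v}.Infinite := by
  obtain ⟨a, b, s⟩ := v
  obtain ⟨c, d, t⟩ := w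
  cases t with
  | true =>
    by_cases h : b ≤ d
    · refine Set.infinite_of_injective_forall_mem (f := fun k : ℕ => ((c, d + 2 * k, true) : Vtx))
        (fun i j hij => ?_) fun k => ?_
      · simp only [Prod.mk.injEq, add_right_inj] at hij
        omega
      · have h1 := dist_VV k c (d + 2 * k) c d (by simp) (by simp)
        obtain ⟨p, hp⟩ := connected.exists_walk_length_eq_dist (c, d + 2 * (k : ℤ), true) (a, b, s)
        have h2 := (walk_lower p).2.1
        rw [hp, Int.abs_eq_natAbs] at h2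
        change G.dist _ _ ≤ G.dist _ _
        dsimp only at h2
        omega
    · refine Set.infinite_of_injective_forall_mem (f := fun k : ℕ => ((c, d - 2 * k, true) : Vtx))
        (fun i j hij => ?_) fun k => ?_
      · simp only [Prod.mk.injEq, sub_right_inj] at hij
        omega
      · have h1 := dist_VV k c (d - 2 * k) c d (by simp) (by simp)
        obtain ⟨p, hp⟩ := connected.exists_walk_length_eq_dist (c, d - 2 * (k : ℤ), true) (a, b, s)
        have h2 := (walk_lower p).2.1
        rw [hp, Int.abs_eq_natAbs] at h2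
        change G.dist _ _ ≤ G.dist _ _
        dsimp only at h2
        omega
  | false =>
    by_cases h : a ≤ c
    · refine Set.infinite_of_injective_forall_mem (f := fun k : ℕ => ((c + 2 * k, d, false) : Vtx))
        (fun i j hij => ?_) fun k => ?_
      · simp only [Prod.mk.injEq, add_right_inj] at hij
        omega
      · have h1 := dist_HH k (c + 2 * k) d c d (by simp) (by simp)
        obtain ⟨p, hp⟩ := connected.exists_walk_length_eq_dist (c + 2 * (k : ℤ), d, false) (a, b, s)
        have h2 := (walk_lower p).1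
        rw [hp, Int.abs_eq_natAbs] at h2
        change G.dist _ _ ≤ G.dist _ _
        dsimp only at h2
        omega
    · refine Set.infinite_of_injective_forall_mem (f := fun k : ℕ => ((c - 2 * k, d, false) : Vtx))
        (fun i j hij => ?_) fun k => ?_
      · simp only [Prod.mk.injEq, sub_right_inj] at hij
        omega
      · have h1 := dist_HH k (c - 2 * k) d c d (by simp) (by simp)
        obtain ⟨p, hp⟩ := connected.exists_walk_length_eq_dist (c - 2 * (k : ℤ), d, false) (a, b, s)
        have h2 := (walk_lower p).1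
        rw [hp, Int.abs_eq_natAbs] at h2
        change G.dist _ _ ≤ G.dist _ _
        dsimp only at h2
        omega

lemma exists_nearest (T : Finset Vtx) (hT : T.Nonempty) (u : Vtx) : ∃ v ∈ T, u ∈ cell G v T := by
  obtain ⟨v, hv, h⟩ := T.exists_min_image (fun v => G.dist u v) hT
  exact ⟨v, hv, fun v' hv' => h v' hv'⟩

lemma two_le_numInfinite (T : Finset Vtx) (hT : 2 ≤ T.card) : 2 ≤ numInfinite G T := by
  have hne : T.Nonempty := Finset.card_pos.mp (by omega)
  -- some cell is infinite
  obtain ⟨v, hvT, hv⟩ : ∃ v ∈ T, (cell G v T).Infinite := by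
    by_contra hcon
    push Not at hcon
    have hfin : (⋃ v ∈ T, cell G v T).Finite :=
      Set.Finite.biUnion (Finset.finite_toSet T) fun v hv => hcon v hv
    have huniv : (⋃ v ∈ T, cell G v T) = Set.univ := by
      refine Set.eq_univ_of_forall fun u => ?_
      obtain ⟨v, hv, hu⟩ := exists_nearest T hne u
      exact Set.mem_iUnion₂.mpr ⟨v, hv, hu⟩
    rw [huniv] at hfin
    exact Set.infinite_univ hfin
  -- a second one
  obtain ⟨w, hwT, hwv, hw⟩ : ∃ w ∈ T, w ≠ v ∧ (cell G w T).Infinite := by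
    by_contra hcon
    push Not at hcon
    obtain ⟨w, hwT, hwv⟩ := Finset.exists_mem_ne (by omega : 1 < T.card) v
    have hfin : (⋃ w' ∈ (T.erase v), cell G w' T).Finite :=
      Set.Finite.biUnion (Finset.finite_toSet (T.erase v)) fun w' hw' =>
        hcon w' (Finset.mem_of_mem_erase hw') (Finset.ne_of_mem_erase hw')
    obtain ⟨u, hu1, hu2⟩ := (infinite_pair v w).exists_notMem_finite hfin
    obtain ⟨v', hv', huv'⟩ := exists_nearest T hne u
    have hv'v : v' = v := by
      by_contra hne'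
      exact hu2 (Set.mem_iUnion₂.mpr ⟨v', Finset.mem_erase.mpr ⟨hne', hv'⟩, huv'⟩)
    subst hv'v
    apply hu2
    refine Set.mem_iUnion₂.mpr ⟨w, Finset.mem_erase.mpr ⟨hwv, hwT⟩, fun v'' hv'' => ?_⟩
    exact le_trans hu1 (huv' v'' hv'')
  unfold numInfinite
  have hfin : {v : Vtx | v ∈ T ∧ (cell G v T).Infinite}.Finite :=
    (Finset.finite_toSet T).subset fun v hv => hv.1
  rw [← Set.ncard_pair hwv]
  refine Set.ncard_le_ncard ?_ hfin
  rintro z (rfl | rfl)
  · exact ⟨hwT, hw⟩
  · exact ⟨hvT, hv⟩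

/-! ## The survival number -/

/-- The points used to build large separated sets with a finite cell. -/
def pts (N : ℕ) : ℕ → Vtx
  | 0 => (0, 0, true)
  | 1 => (0, N, false)
  | 2 => (0, -N, false)
  | (j + 3) => ((j + 1) * N, 0, true)

lemma pts_sep (N d : ℕ) (hN : 2 * d < N) (i j : ℕ) (hij : i < j) :
    d < G.dist (pts N i) (pts N j) := by
  obtain ⟨p, hp⟩ := connected.exists_walk_length_eq_dist (pts N i) (pts N j)
  obtain ⟨h1, h2, -⟩ := walk_lower p
  rw [hp] at h1 h2
  match i, j, hij, h1, h2 with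
  | 0, 1, _, h1, h2 =>
    simp only [pts, Int.abs_eq_natAbs] at h1 h2 ⊢
    omega
  | 0, 2, _, h1, h2 =>
    simp only [pts, Int.abs_eq_natAbs] at h1 h2 ⊢
    omega
  | 1, 2, _, h1, h2 =>
    simp only [pts, Int.abs_eq_natAbs] at h1 h2 ⊢
    omega
  | 0, (j + 3), _, h1, h2 =>
    simp only [pts, Int.abs_eq_natAbs] at h1 h2 ⊢
    have : (N : ℤ) ≤ (j + 1) * N := by nlinarith [Int.natCast_nonneg j, Int.natCast_nonneg N]
    omega
  | 1, (j + 3), _, h1, h2 =>
    simp only [pts, Int.abs_eq_natAbs] at h1 h2 ⊢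
    have : (N : ℤ) ≤ (j + 1) * N := by nlinarith [Int.natCast_nonneg j, Int.natCast_nonneg N]
    omega
  | 2, (j + 3), _, h1, h2 =>
    simp only [pts, Int.abs_eq_natAbs] at h1 h2 ⊢
    have : (N : ℤ) ≤ (j + 1) * N := by nlinarith [Int.natCast_nonneg j, Int.natCast_nonneg N]
    omega
  | (i + 3), (j + 3), hij, h1, h2 =>
    simp only [pts, Int.abs_eq_natAbs] at h1 h2 ⊢
    have hij' : (i : ℤ) + 1 ≤ j := by omega
    have : (i + 1) * (N : ℤ) + N ≤ (j + 1) * N := by nlinarith [Int.natCast_nonneg N]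
    omega

lemma survivalNumber_eq : survivalNumber G = 2 := by
  apply le_antisymm
  · refine sSup_le ?_
    rintro s ⟨n, rfl, hn1, d, hd⟩
    by_contra hcon
    have hn : 3 ≤ n := by
      have : (2 : ℕ∞) < n := not_le.mp hcon
      exact_mod_cast this
    set N : ℕ := 2 * d + 9 with hN
    have hinj : Function.Injective (pts N) := by
      intro i j hij
      rcases lt_trichotomy i j with h | h | h
      · have := pts_sep N d (by omega) i j h
        rw [hij] at this
        simp at this
      · exact h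
      · have := pts_sep N d (by omega) j i h
        rw [hij] at this
        simp at this
    set T : Finset Vtx := (Finset.range n).map ⟨pts N, hinj⟩ with hT
    have hcard : T.card = n := by simp [hT]
    have hmem : ∀ i, i < n → pts N i ∈ T := by
      intro i hi
      rw [hT, Finset.mem_map]
      exact ⟨i, Finset.mem_range.mpr hi, rfl⟩
    have hsep : T ∈ sepSets G d n := by
      refine ⟨hcard.ge, ?_⟩
      intro v₁ h₁ v₂ h₂ hne
      rw [hT, Finset.mem_map] at h₁ h₂
      obtain ⟨i, -, rfl⟩ := h₁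
      obtain ⟨j, -, rfl⟩ := h₂
      rcases lt_trichotomy i j with h | h | h
      · exact pts_sep N d (by omega) i j h
      · exact absurd (by rw [h]) hne
      · rw [SimpleGraph.dist_comm]
        exact pts_sep N d (by omega) j i h
    have h1 := hd T hsep
    have hfin := cell_finite N (by omega) T (hmem 1 (by omega)) (hmem 2 (by omega))
    have h2 : numInfinite G T ≤ (T.erase ctr).card := by
      unfold numInfinite
      rw [← Set.ncard_coe_finset]
      refine Set.ncard_le_ncard ?_ (Finset.finite_toSet _)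
      rintro v ⟨hv, hinf⟩
      refine Finset.mem_coe.mpr (Finset.mem_erase.mpr ⟨?_, hv⟩)
      rintro rfl
      exact hinf hfin
    have h3 : (T.erase ctr).card < T.card :=
      Finset.card_erase_lt_of_mem (hmem 0 (by omega))
    omega
  · refine le_sSup ⟨2, rfl, by norm_num, 0, fun T hT => two_le_numInfinite T hT.1⟩

/-! ## Local finiteness and growth -/

lemma locallyFinite (v : Vtx) : (G.neighborSet v).Finite := by
  obtain ⟨x, y, s⟩ := v
  have hfin : ((Set.Icc (x - 2) (x + 2)) ×ˢ
      ((Set.Icc (y - 2) (y + 2)) ×ˢ (Set.univ : Set Bool))).Finite :=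
    (Set.finite_Icc _ _).prod ((Set.finite_Icc _ _).prod Set.finite_univ)
  refine hfin.subset ?_
  rintro ⟨x', y', t⟩ ⟨-, h⟩
  simp only [Int.abs_eq_natAbs] at h
  refine ⟨⟨?_, ?_⟩, ⟨⟨?_, ?_⟩, trivial⟩⟩ <;> dsimp only <;> omega

lemma growth (x y : ℤ) (s : Bool) (r : ℕ) :
    (((2 * r + 1) ^ 2 : ℕ) : ℕ∞) ≤ (ball G (x, y, s) r).encard := by
  have hsub : (fun p : ℤ × ℤ => ((x + p.1, y + p.2, s) : Vtx)) ''
      ((Finset.Icc (-(r : ℤ)) r ×ˢ Finset.Icc (-(r : ℤ)) r : Finset (ℤ × ℤ)) : Set (ℤ × ℤ)) ⊆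
      ball G (x, y, s) r := by
    rintro _ ⟨⟨a, b⟩, hab, rfl⟩
    simp only [Finset.coe_product, Finset.coe_Icc, Set.mem_prod, Set.mem_Icc] at hab
    change G.dist _ _ ≤ r
    cases s with
    | false =>
      refine dist_HH r _ _ _ _ ?_ ?_ <;> rw [Int.abs_eq_natAbs] <;> dsimp only <;> omega
    | true =>
      refine dist_VV r _ _ _ _ ?_ ?_ <;> rw [Int.abs_eq_natAbs] <;> dsimp only <;> omega
  refine le_trans ?_ (Set.encard_le_encard hsub)
  rw [Function.Injective.encard_image, Set.encard_coe_eq_coe_finsetCard, Finset.card_product,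
    Int.card_Icc]
  · have : ((r : ℤ) + 1 - -(r : ℤ)).toNat = 2 * r + 1 := by omega
    rw [this, sq]
  · intro p q hpq
    simp only [Prod.mk.injEq, add_right_inj, and_true] at hpq
    exact Prod.ext hpq.1 hpq.2

lemma not_linear : ¬ LinearGrowth G := by
  rintro ⟨a, b, h⟩
  have h1 := (growth 0 0 true (a + b)).trans (h (0, 0, true) (a + b))
  have h2 : (2 * (a + b) + 1) ^ 2 ≤ a * (a + b) + b := by exact_mod_cast h1
  nlinarith [Nat.zero_le a, Nat.zero_le b, Nat.zero_le (a * b)]

end Pool.Agent.Lib.MP_20f07a_co
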